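import Pool.Agent.H84.FK.Targets2

set_option autoImplicit false

namespace Pool.Agent.H66.FKNCO
open Pool.Agent.H84.FK

theorem one_prime (hBUR : T_BUR) (G : Type) [Group G] [Finite G] (V : Subgroup G) (hV : Ab V)
    (hc : Nat.Coprime (Nat.card V) V.index)
    (hN : ∀ (q : ℕ), q.Prime → q ∣ Nat.card V → ∀ Q : Subgroup G, Q ≤ V → IsPGroup q Q →
      ¬ q ∣ Q.index → ∀ g : G, (∀ x ∈ Q, g * x * g⁻¹ ∈ Q) → ∀ x ∈ Q, g * x = x * g)
    (q : ℕ) (hq : q.Prime) (hd : q ∣ Nat.card V) :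
    ∃ K : Subgroup G, K.Normal ∧ (∀ x : G, ¬ q ∣ orderOf x → x ∈ K) ∧
      (∀ x ∈ V, x ^ q = 1 → x ∈ K → x = 1) := by
  haveI : Fact q.Prime := ⟨hq⟩
  obtain ⟨P⟩ := (inferInstance : Nonempty (Sylow q V))
  have hPn : (P : Subgroup V).Normal := by
    refine ⟨fun n hn g => ?_⟩
    have h : g * n * g⁻¹ = n := by
      have h1 : g * n = n * g := Subtype.ext (hV g g.2 n n.2)
      rw [h1]; group
    rw [h]; exact hn
  have hQle : (P : Subgroup V).map V.subtype ≤ V := by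
    rintro x ⟨y, -, rfl⟩
    exact y.2
  have hQp : IsPGroup q ((P : Subgroup V).map V.subtype) := P.isPGroup'.map V.subtype
  have hQi : ¬ q ∣ ((P : Subgroup V).map V.subtype).index := by
    rw [← Subgroup.relIndex_mul_index hQle, Subgroup.relIndex, Subgroup.subgroupOf,
      Subgroup.comap_map_eq_self_of_injective Subtype.coe_injective]
    intro h
    rcases (Nat.Prime.dvd_mul hq).1 h with h | h
    · exact P.not_dvd_index h
    · exact (Nat.Prime.one_lt hq).ne' (Nat.eq_one_of_dvd_coprimes hc hd h)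
  obtain ⟨K, hK, h1, h2⟩ := hBUR G q hq _ hQp hQi (hN q hq hd _ hQle hQp hQi)
  refine ⟨K, hK, h1, fun x hx hxq hxK => h2 x ?_ hxK⟩
  refine ⟨⟨x, hx⟩, ?_, rfl⟩
  have hz : IsPGroup q (Subgroup.zpowers (⟨x, hx⟩ : V)) := by
    rw [IsPGroup.iff_orderOf]
    intro y
    obtain ⟨y, hy⟩ := y
    obtain ⟨k, rfl⟩ := Subgroup.mem_zpowers_iff.1 hy
    have h3 : ((⟨(⟨x, hx⟩ : V) ^ k, hy⟩ : Subgroup.zpowers (⟨x, hx⟩ : V))) ^ q = 1 := by
      apply Subtype.ext
      apply Subtype.ext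
      simp only [Subgroup.coe_pow, Subgroup.coe_zpow, Subgroup.coe_one]
      rw [← zpow_natCast, ← zpow_mul, mul_comm, zpow_mul, zpow_natCast, hxq, one_zpow]
    have h4 := orderOf_dvd_of_pow_eq_one h3
    rcases (Nat.dvd_prime hq).1 h4 with h | h
    · exact ⟨0, by rw [h, pow_zero]⟩
    · exact ⟨1, by rw [h, pow_one]⟩
  haveI := hPn
  have h5 : IsPGroup q ((P : Subgroup V) ⊔ Subgroup.zpowers (⟨x, hx⟩ : V) : Subgroup V) :=
    IsPGroup.to_sup_of_normal_left P.isPGroup' hz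
  have h6 := P.is_maximal' h5 le_sup_left
  exact h6.le (Subgroup.mem_sup_right (Subgroup.mem_zpowers _))

theorem pf_nco (hBUR : T_BUR) : T_NCO := by
  intro G _ _ V hV hc hN
  choose! K hK using one_prime hBUR G V hV hc hN
  refine ⟨⨅ (q : ℕ) (_ : q.Prime ∧ q ∣ Nat.card V), K q, ⟨?_⟩, ?_, ?_⟩
  · intro x hx g
    simp only [Subgroup.mem_iInf] at hx ⊢
    intro q hq
    exact (hK q hq.1 hq.2).1.conj_mem x (hx q hq) g
  · intro x hx hxV
    simp only [Subgroup.mem_iInf] at hx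
    by_contra hne
    have h1 : orderOf x ≠ 1 := fun h => hne (orderOf_eq_one_iff.1 h)
    obtain ⟨q, hq, hd⟩ := Nat.exists_prime_and_dvd h1
    have hqV : q ∣ Nat.card V := by
      refine hd.trans ?_
      have h2 := orderOf_dvd_natCard (⟨x, hxV⟩ : V)
      rwa [← Subgroup.orderOf_coe] at h2
    obtain ⟨m, hm⟩ := hd
    have hy : (x ^ m) ^ q = 1 := by
      rw [← pow_mul, mul_comm, ← hm, pow_orderOf_eq_one]
    have hy1 := (hK q hq hqV).2.2 (x ^ m) (V.pow_mem hxV m) hy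
      ((K q).pow_mem (hx q ⟨hq, hqV⟩) m)
    have h3 := orderOf_dvd_of_pow_eq_one hy1
    have hpos : 0 < orderOf x := orderOf_pos x
    have hm0 : 0 < m := by
      rcases Nat.eq_zero_or_pos m with h | h
      · rw [h, Nat.mul_zero] at hm; omega
      · exact h
    have h4 := Nat.le_of_dvd hm0 h3
    have h5 := hq.two_le
    nlinarith
  · intro x hx
    simp only [Subgroup.mem_iInf]
    intro q hq
    refine (hK q hq.1 hq.2).2.1 x fun h => ?_
    exact (Nat.Prime.one_lt hq.1).ne' (Nat.eq_one_of_dvd_coprimes hx h hq.2)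

end Pool.Agent.H66.FKNCO
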