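import Pool.Agent.H84.FK.Targets2

set_option autoImplicit false

namespace Pool.Agent.H66.FKOP
open Pool.Agent.H84.FK

theorem pf_op : T_OP := by
  intro G _ _ p hp
  haveI : Fact p.Prime := ⟨hp⟩
  refine ⟨⨅ P : Sylow p G, (P : Subgroup G), ⟨?_⟩, ?_, ?_, ?_⟩
  · intro x hx g
    rw [Subgroup.mem_iInf] at hx ⊢
    intro P
    have h := hx (g⁻¹ • P)
    rw [Sylow.coe_subgroup_smul, Subgroup.mem_pointwise_smul_iff_inv_smul_mem] at h
    simpa [MulAut.smul_def, MulAut.conj_apply] using h
  · obtain ⟨P⟩ := (inferInstance : Nonempty (Sylow p G))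
    exact P.isPGroup'.to_le (iInf_le _ P)
  · intro N hN hNp
    refine le_iInf fun P => ?_
    haveI := hN
    have h1 : IsPGroup p ((P : Subgroup G) ⊔ N : Subgroup G) :=
      IsPGroup.to_sup_of_normal_right P.isPGroup' hNp
    have h2 := P.is_maximal' h1 le_sup_left
    exact le_trans le_sup_right h2.le
  · intro P hP hi
    exact iInf_le (fun Q : Sylow p G => (Q : Subgroup G)) (hP.toSylow hi)

end Pool.Agent.H66.FKOP
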